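import Pool.Agent.H33.SO2
import Pool.Agent.H33.Spl3

set_option autoImplicit false

open Set Filter Topology Pool.Agent.H33 Pool.Agent.H33.DiaDefs

namespace Pool.Agent.Results.MP_5106fb_gt.DiamondCex

theorem result (h : Diamond) :
    ∃ (X : Type) (_ : TopologicalSpace X), T35Space X ∧ FrechetUrysohnSpace X ∧
      (∀ s : Set X, (∀ K : Set X, IsCompact K → IsClosed (s ∩ K)) → IsClosed s) ∧
      (∀ n : ℕ, LindelofSpace (Fin n → X)) ∧
      ∃ S A : Set (X → ℝ), S ⊆ {f : X → ℝ | Continuous f} ∧ A ⊆ S ∧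
        (∀ B ⊆ A, B.Infinite → ∃ y ∈ S, AccPt y (Filter.principal B)) ∧
        ¬ IsCompact (closure A ∩ S) := by
  classical
  have := unc
  obtain ⟨τ, V, e, t2, -, hV, cc, he, hS⟩ := SO2.space h
  let χ : W → W → ℝ := fun x y => if y ∈ V x then 1 else 0
  let ev : W → range χ → ℝ := fun y x => x.1 y
  have cl : ∀ x, IsClopen (V x) := fun x => ⟨(hV x).2.2.1.isClosed, (hV x).2.1⟩
  have c1 : Continuous ev := continuous_pi (by
    rintro ⟨_, x, rfl⟩
    exact continuous_if (fun a ha => ((cl x).frontier_eq.le ha).elim) continuousOn_const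
      continuousOn_const)
  have le : ∀ x y, χ x y ≠ 0 → y ≤ x := fun x y h => (hV x).2.2.2 y (by simpa [χ] using h)
  have ne : ∀ x, χ x x ≠ 0 := fun x => by simp [χ, (hV x).1]
  have i1 : Function.Injective ev := fun y z h => le_antisymm
    (le z y (fun e => ne z ((congrFun h ⟨_, z, rfl⟩).symm.trans e)))
    (le y z (fun e => ne y ((congrFun h ⟨_, y, rfl⟩).trans e)))
  have fu : FrechetUrysohnSpace (range χ) := ⟨fun D x hx => by
    obtain ⟨u, h1, h2⟩ := Spl3.sigma_seq (φ := Subtype.val) continuous_subtype_val (by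
      rintro ⟨_, x, rfl⟩
      exact ((cnt x).insert x).mono fun y hy => (le x y hy).eq_or_lt) hx
    exact ⟨u, h1, tendsto_subtype_rng.2 h2⟩⟩
  refine ⟨range χ, inferInstance, inferInstance, fu, fun s hs => ?_, fun n => ⟨?_⟩, range ev,
    range ev, ?_, subset_rfl, fun B hB h1 => ?_, fun hK => ?_⟩
  · exact IsSeqClosed.isClosed fun u x h1 h2 => ((hs _ h2.isCompact_insert_range).mem_of_tendsto h2
      (Eventually.of_forall fun n => ⟨h1 n, Or.inr ⟨n, rfl⟩⟩)).1
  · refine isLindelof_of_countable_subcover fun {ι} U hU hc => ?_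
    let π : (Fin n → W) → Fin n → range χ := fun z k => ⟨_, z k, rfl⟩
    let w : (Fin n → W) → W → Fin n → Prop := fun z y k => y ∈ V (z k)
    choose i hi using fun z => mem_iUnion.1 (hc (mem_univ (π z)))
    have h1 : ∀ z, ∃ I : Set W, I.Finite ∧ ∀ v, (∀ y ∈ I, w v y = w z y) → π v ∈ U (i z) := fun z => by
      have h2 : Tendsto π (⨅ y, 𝓟 {v | w v y = w z y}) (𝓝 (π z)) :=
        tendsto_pi_nhds.2 fun k => tendsto_subtype_rng.2 (tendsto_pi_nhds.2 fun y =>
          tendsto_const_nhds.congr' (mem_iInf_of_mem y fun v hv =>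
            if_congr (iff_of_eq (congrFun hv k)).symm rfl rfl))
      obtain ⟨I, a, O, b, -, c, -⟩ := Filter.mem_iInf'.1 (h2 ((hU _).mem_nhds (hi z)))
      exact ⟨I, a, fun v hv => c.ge (mem_iInter₂.2 fun y hy => b y (hv y hy))⟩
    choose I h1 h2 using h1
    obtain ⟨T, h3, h4⟩ := SO2.hl he hS w (fun z x => by
      filter_upwards [eventually_all.2 fun k => show ∀ᶠ y in 𝓝 x, (y ∈ V (z k)) = (x ∈ V (z k)) by
        by_cases h : x ∈ V (z k)
        · filter_upwards [(cl _).2.mem_nhds h] with y hy using propext (iff_of_true hy h)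
        · filter_upwards [(cl _).1.isOpen_compl.mem_nhds h] with y hy
            using propext (iff_of_false hy h)] with y hy using funext hy) I h1
    refine ⟨i '' T, h3.image i, fun x _ => ?_⟩
    choose v hv using fun k => (x k).2
    obtain ⟨z, z1, z2⟩ := h4 v
    rw [show x = π v from funext fun k => Subtype.ext (hv k).symm]
    exact mem_biUnion ⟨z, z1, rfl⟩ (h2 z v z2)
  · rintro _ ⟨y, rfl⟩
    exact (continuous_apply y).comp continuous_subtype_val
  · obtain ⟨y, hy⟩ := cc _ (h1.preimage hB)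
    refine ⟨_, ⟨y, rfl⟩, (hy.map c1.continuousAt i1).mono ?_⟩
    rw [map_principal]
    exact principal_mono.2 (image_preimage_subset _ _)
  · rw [inter_eq_right.2 subset_closure] at hK
    obtain ⟨s, hs⟩ := hK.elim_finite_subcover (fun x : W => {g | g ⟨_, x, rfl⟩ ≠ 0})
      (fun x => isOpen_ne_fun (continuous_apply _) continuous_const)
      (by rintro _ ⟨y, rfl⟩; exact mem_iUnion.2 ⟨y, ne y⟩)
    obtain ⟨β, hβ⟩ := DT1.bd cnt _ s.countable_toSet
    obtain ⟨x, a, b⟩ := mem_iUnion₂.1 (hs ⟨β, rfl⟩)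
    exact not_le.2 (hβ x a) (le x β b)

end Pool.Agent.Results.MP_5106fb_gt.DiamondCex
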